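import Mathlib
import Pool.Agent.Lib.MP_65c995_pr.Kern
import Pool.Agent.Lib.MP_65c995_pr.Full

/-!
# A stationary one-dependent Markov process with separated steps

There is a stationary Markov process in a compact metric space which is one-dependent (its past
up to time `n` and its future from time `n + 2` are independent, for every `n`) and whose
consecutive values are at distance at least `ε > 0`.  Lag one is impossible.
-/

set_option autoImplicit false

open MeasureTheory ProbabilityTheory

namespace Pool.Agent.Results.MP_65c995_pr.OneDependentMarkov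

/-- **A stationary, one-dependent Markov process with steps bounded from below exists, and lag one
is impossible.** -/
theorem result :
    (∃ (S : Type) (_ : MetricSpace S) (_ : CompactSpace S) (_ : MeasurableSpace S)
      (_ : BorelSpace S) (Ω : Type) (_ : MeasurableSpace Ω) (μ : Measure Ω)
      (X : ℤ → Ω → S) (ε : ℝ),
      IsProbabilityMeasure μ ∧
      (∀ i, Measurable (X i)) ∧
      -- stationary
      (∀ n : ℤ, μ.map (fun ω (i : ℤ) => X (i + n) ω) = μ.map (fun ω (i : ℤ) => X i ω)) ∧
      -- Markov: the conditional probability of every event of the future, given the past and the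
      -- present, is its conditional probability given the present
      (∀ (n : ℤ) (B : Set Ω),
        MeasurableSet[⨆ (m : ℤ) (_ : n ≤ m), MeasurableSpace.comap (X m) inferInstance] B →
        condExp (⨆ (m : ℤ) (_ : m ≤ n), MeasurableSpace.comap (X m) inferInstance) μ
          (B.indicator (fun _ => (1 : ℝ)))
        =ᵐ[μ] condExp (MeasurableSpace.comap (X n) inferInstance) μ
          (B.indicator (fun _ => (1 : ℝ)))) ∧
      -- one-dependent
      (∀ n : ℤ, Indep (⨆ (m : ℤ) (_ : m ≤ n), MeasurableSpace.comap (X m) inferInstance)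
        (⨆ (m : ℤ) (_ : n + 2 ≤ m), MeasurableSpace.comap (X m) inferInstance) μ) ∧
      -- in particular independent at every lag `k ≥ 2`
      (∀ k : ℤ, 2 ≤ k → IndepFun (X 0) (X k) μ) ∧
      -- all steps are bounded from below
      0 < ε ∧ ∀ᵐ ω ∂μ, ∀ i : ℤ, ε ≤ dist (X i ω) (X (i + 1) ω)) ∧
    -- lag one is impossible, for every stationary process, Markov or not
    (∀ (S : Type) (_ : MetricSpace S) (_ : CompactSpace S) (_ : MeasurableSpace S)
      (_ : BorelSpace S) (Ω : Type) (_ : MeasurableSpace Ω) (μ : Measure Ω)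
      (X : ℤ → Ω → S) (ε : ℝ),
      IsProbabilityMeasure μ →
      (∀ i, Measurable (X i)) →
      (∀ n : ℤ, μ.map (fun ω (i : ℤ) => X (i + n) ω) = μ.map (fun ω (i : ℤ) => X i ω)) →
      IndepFun (X 0) (X 1) μ → 0 < ε → 0 < μ {ω | dist (X 0 ω) (X 1 ω) < ε}) := by
  constructor
  · obtain ⟨Ω, mΩ, μ, X, h1, h2, h3, h4, h5, h6⟩ :=
      Pool.Agent.Lib.MP_65c995_pr.exists_process_full Pool.Agent.Lib.MP_65c995_pr.piS
        Pool.Agent.Lib.MP_65c995_pr.kap Pool.Agent.Lib.MP_65c995_pr.kap'
        Pool.Agent.Lib.MP_65c995_pr.kap_rev Pool.Agent.Lib.MP_65c995_pr.kap_kap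
        _ Pool.Agent.Lib.MP_65c995_pr.measSet_same Pool.Agent.Lib.MP_65c995_pr.kap_same
    let _ : MetricSpace Pool.Agent.Lib.MP_65c995_pr.St :=
      TopologicalSpace.metrizableSpaceMetric Pool.Agent.Lib.MP_65c995_pr.St
    -- the colour map is uniformly continuous
    have hc : Continuous
        (fun x : Pool.Agent.Lib.MP_65c995_pr.St => (x.1.1.toNat + 2 * x.1.2.1 : ℕ)) := by
      have h1 : Continuous
          (fun p : Pool.Agent.Lib.MP_65c995_pr.Col => (p.1.toNat + 2 * p.2.1 : ℕ)) :=
        continuous_of_discreteTopology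
      exact h1.comp continuous_fst
    have hu := CompactSpace.uniformContinuous_of_continuous hc
    rw [Metric.uniformContinuous_iff] at hu
    obtain ⟨ε, hε, hd⟩ := hu 1 one_pos
    refine ⟨Pool.Agent.Lib.MP_65c995_pr.St, inferInstance, inferInstance, inferInstance,
      inferInstance, Ω, mΩ, μ, X, ε, h1, h2, h3, h4, h5, ?_, hε, ?_⟩
    · intro k hk
      have hi := h5 0
      rw [Indep_iff] at hi
      rw [IndepFun_iff]
      intro s t hs ht
      refine hi s t ?_ ?_
      · exact (le_iSup₂_of_le (f := fun (m : ℤ) (_ : m ≤ 0) =>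
          MeasurableSpace.comap (X m) inferInstance) 0 le_rfl le_rfl) s hs
      · exact (le_iSup₂_of_le (f := fun (m : ℤ) (_ : 0 + 2 ≤ m) =>
          MeasurableSpace.comap (X m) inferInstance) k (by omega) le_rfl) t ht
    · filter_upwards [h6] with ω hω
      intro i
      have hωi := hω i
      by_contra hlt
      rw [not_le] at hlt
      have h := hd hlt
      rw [Nat.dist_eq] at h
      apply hωi
      change (X i ω).1 = (X (i + 1) ω).1
      have h' : ((X i ω).1.1.toNat + 2 * (X i ω).1.2.1 : ℤ) =
          ((X (i + 1) ω).1.1.toNat + 2 * (X (i + 1) ω).1.2.1 : ℤ) := by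
        have h0 : |(((X i ω).1.1.toNat + 2 * (X i ω).1.2.1 : ℕ) : ℝ) -
          (((X (i + 1) ω).1.1.toNat + 2 * (X (i + 1) ω).1.2.1 : ℕ) : ℝ)| < 1 := h
        have h0' : |(((X i ω).1.1.toNat + 2 * (X i ω).1.2.1 : ℤ)) -
          (((X (i + 1) ω).1.1.toNat + 2 * (X (i + 1) ω).1.2.1 : ℤ))| < 1 := by
          exact_mod_cast h0
        rw [Int.abs_lt_one_iff] at h0'
        linarith
      have e1 : (X i ω).1.1.toNat < 2 := by cases (X i ω).1.1 <;> decide
      have e2 : (X (i + 1) ω).1.1.toNat < 2 := by cases (X (i + 1) ω).1.1 <;> decide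
      have e3 : (X i ω).1.1.toNat = (X (i + 1) ω).1.1.toNat := by omega
      have e4 : (X i ω).1.2.1 = (X (i + 1) ω).1.2.1 := by omega
      refine Prod.ext ?_ (Fin.ext e4)
      revert e3
      cases (X i ω).1.1 <;> cases (X (i + 1) ω).1.1 <;> simp
  · intro S _ _ _ _ Ω _ μ X ε hμ hX hst hind hε
    have hlaw : μ.map (X 1) = μ.map (X 0) := by
      have h := hst 1
      have hm1 : Measurable (fun ω (i : ℤ) => X (i + 1) ω) := by
        rw [measurable_pi_iff]; exact fun i => hX _
      have hm0 : Measurable (fun ω (i : ℤ) => X i ω) := by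
        rw [measurable_pi_iff]; exact fun i => hX _
      have h' := congrArg (fun m : Measure (ℤ → S) => m.map (fun z => z 0)) h
      rw [Measure.map_map (measurable_pi_apply 0) hm1,
        Measure.map_map (measurable_pi_apply 0) hm0] at h'
      have e1 : ((fun z : ℤ → S => z 0) ∘ fun ω (i : ℤ) => X (i + 1) ω) = X 1 := by
        funext ω
        change X (0 + 1) ω = X 1 ω
        rw [zero_add]
      have e0 : ((fun z : ℤ → S => z 0) ∘ fun ω (i : ℤ) => X i ω) = X 0 := rfl
      rw [e1, e0] at h'
      exact h'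
    have hp : IsProbabilityMeasure (μ.map (X 0)) :=
      Measure.isProbabilityMeasure_map (hX 0).aemeasurable
    have huniv : (μ.map (X 0)) Set.univ ≠ 0 := by
      rw [measure_univ]; exact one_ne_zero
    obtain ⟨x, -, hx⟩ := exists_mem_forall_mem_nhdsWithin_pos_measure huniv
    have hball : MeasurableSet (Metric.ball x (ε / 2)) := measurableSet_ball
    have hpos : 0 < (μ.map (X 0)) (Metric.ball x (ε / 2)) := by
      refine hx _ ?_
      rw [nhdsWithin_univ]
      exact Metric.ball_mem_nhds x (half_pos hε)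
    have h0 : 0 < μ (X 0 ⁻¹' Metric.ball x (ε / 2)) := by
      rw [← Measure.map_apply (hX 0) hball]; exact hpos
    have h1 : 0 < μ (X 1 ⁻¹' Metric.ball x (ε / 2)) := by
      rw [← Measure.map_apply (hX 1) hball, hlaw]; exact hpos
    have hprod : 0 < μ (X 0 ⁻¹' Metric.ball x (ε / 2) ∩ X 1 ⁻¹' Metric.ball x (ε / 2)) := by
      rw [(indepFun_iff_measure_inter_preimage_eq_mul.mp hind) _ _ hball hball]
      exact ENNReal.mul_pos h0.ne' h1.ne'
    refine lt_of_lt_of_le hprod (measure_mono ?_)
    rintro ω ⟨ha, hb⟩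
    simp only [Set.mem_preimage, Metric.mem_ball] at ha hb
    change dist (X 0 ω) (X 1 ω) < ε
    calc dist (X 0 ω) (X 1 ω) ≤ dist (X 0 ω) x + dist (X 1 ω) x := dist_triangle_right _ _ _
      _ < ε / 2 + ε / 2 := add_lt_add ha hb
      _ = ε := add_halves ε

end Pool.Agent.Results.MP_65c995_pr.OneDependentMarkov
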